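import Pool.Agent.W70.BA.Main

/-!
The characters of the slice algebra.
-/

set_option autoImplicit false

namespace Pool.Agent.Y503.CX

open Set Filter Topology ComplexConjugate Pool.Agent.W70.BA

/-- evaluation at a point of the ball -/
noncomputable def ev (p : X) : A →ₐ[ℂ] ℂ := (ContinuousMap.evalAlgHom ℂ ℂ p).comp A.val

lemma ev_apply (p : X) (f : A) : ev p f = f.1 p := rfl

/-- functions of the real coordinate -/
noncomputable def G (g : C(ℝ, ℂ)) : A := ⟨⟨fun x => g x.1.2, by fun_prop⟩, by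
  intro b
  refine (differentiableOn_const (g b)).congr ?_
  intro z hz
  rw [sl_apply _ _ _ (mem_X_of_U hz)]
  rfl⟩

lemma G_apply (g : C(ℝ, ℂ)) (x : X) : (G g).1 x = g x.1.2 := rfl

lemma cz_apply (x : X) : cz.1 x = x.1.1 := rfl
lemma cb_apply (x : X) : cb.1 x = (x.1.2 : ℂ) := rfl
lemma alg_apply (c : ℂ) (x : X) : (algebraMap ℂ A c).1 x = c := rfl

/-- uniform approximation by polynomials in a disc -/
lemma approx_poly (F : ℂ → ℂ) (R : ℝ) (hR : 0 < R) (hc : ContinuousOn F (Metric.closedBall 0 R))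
    (hd : DifferentiableOn ℂ F (Metric.ball 0 R)) (ε : ℝ) (hε : 0 < ε) :
    ∃ P : Polynomial ℂ, ∀ z ∈ Metric.closedBall (0 : ℂ) R, ‖P.eval z - F z‖ ≤ ε := by
  have huc := (isCompact_closedBall (0 : ℂ) R).uniformContinuousOn_of_continuous hc
  rw [Metric.uniformContinuousOn_iff] at huc
  obtain ⟨δ, hδ, hδ2⟩ := huc (ε / 2) (by linarith)
  obtain ⟨r, hr0, hr1, hr2⟩ : ∃ r : ℝ, 0 < r ∧ r < 1 ∧ (1 - r) * R < δ := by
    refine ⟨max (1 / 2) (1 - δ / (2 * R)), lt_of_lt_of_le (by norm_num) (le_max_left _ _),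
      max_lt (by norm_num) (by have : 0 < δ / (2 * R) := by positivity
                               linarith), ?_⟩
    have h1 : 1 - max (1 / 2) (1 - δ / (2 * R)) ≤ δ / (2 * R) := by
      have := le_max_right (1 / 2) (1 - δ / (2 * R))
      linarith
    calc (1 - max (1 / 2) (1 - δ / (2 * R))) * R ≤ δ / (2 * R) * R :=
          mul_le_mul_of_nonneg_right h1 hR.le
      _ = δ / 2 := by field_simp
      _ < δ := by linarith
  have hcl : DiffContOnCl ℂ F (Metric.ball 0 R) :=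
    ⟨hd, by rwa [closure_ball 0 hR.ne']⟩
  lift R to NNReal using hR.le
  have hR' : 0 < R := by exact_mod_cast hR
  have hps := hcl.hasFPowerSeriesOnBall hR'
  have hrR : ∃ R' : NNReal, (r * R : ℝ) < R' ∧ R' < R := by
    refine ⟨⟨(r * R + R) / 2, by positivity⟩, ?_, ?_⟩
    · show r * (R : ℝ) < (r * R + R) / 2
      nlinarith
    · rw [← NNReal.coe_lt_coe]
      show (r * (R : ℝ) + R) / 2 < R
      nlinarith
  obtain ⟨R', h1, h2⟩ := hrR
  have htu := hps.tendstoUniformlyOn (r' := R') (by exact_mod_cast h2)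
  rw [Metric.tendstoUniformlyOn_iff] at htu
  obtain ⟨n, hn⟩ := (htu (ε / 2) (by linarith)).exists
  refine ⟨∑ k ∈ Finset.range n,
    Polynomial.C ((cauchyPowerSeries F 0 R).coeff k * (r : ℂ) ^ k) * Polynomial.X ^ k, ?_⟩
  intro z hz
  have hz' : ‖z‖ ≤ R := by simpa using hz
  have hrz : ‖(r : ℂ) * z‖ ≤ r * R := by
    rw [norm_mul, Complex.norm_real, Real.norm_of_nonneg hr0.le]
    exact mul_le_mul_of_nonneg_left hz' hr0.le
  have e1 : Polynomial.eval z (∑ k ∈ Finset.range n,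
      Polynomial.C ((cauchyPowerSeries F 0 R).coeff k * (r : ℂ) ^ k) * Polynomial.X ^ k) =
      (cauchyPowerSeries F 0 R).partialSum n ((r : ℂ) * z) := by
    rw [Polynomial.eval_finsetSum]
    unfold FormalMultilinearSeries.partialSum
    refine Finset.sum_congr rfl fun k _ => ?_
    rw [FormalMultilinearSeries.apply_eq_pow_smul_coeff, smul_eq_mul]
    simp only [Polynomial.eval_mul, Polynomial.eval_C, Polynomial.eval_pow, Polynomial.eval_X]
    ring
  have h3 := hn ((r : ℂ) * z) (by simpa using lt_of_le_of_lt hrz h1)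
  have h4 : dist (F ((r : ℂ) * z)) (F z) < ε / 2 := by
    refine hδ2 _ ?_ _ hz ?_
    · simp only [Metric.mem_closedBall, dist_zero_right]
      refine hrz.trans ?_
      nlinarith
    · rw [dist_eq_norm]
      have : (r : ℂ) * z - z = ((-(1 - r) : ℝ) : ℂ) * z := by
        push_cast
        ring
      rw [this, norm_mul, Complex.norm_real, norm_neg, Real.norm_of_nonneg (by linarith)]
      exact lt_of_le_of_lt (mul_le_mul_of_nonneg_left hz' (by linarith)) hr2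
  rw [zero_add, dist_eq_norm] at h3
  rw [dist_eq_norm] at h4
  rw [e1]
  have e2 : (cauchyPowerSeries F 0 R).partialSum n ((r : ℂ) * z) - F z =
      -(F ((r : ℂ) * z) - (cauchyPowerSeries F 0 R).partialSum n ((r : ℂ) * z)) +
        (F ((r : ℂ) * z) - F z) := by ring
  rw [e2]
  refine (norm_add_le _ _).trans ?_
  rw [norm_neg]
  linarith

lemma exists_zero (φ : A →ₐ[ℂ] ℂ) (f : A) (h : φ f = 0) : ∃ x : X, f.1 x = 0 := by
  by_contra hcon
  push Not at hcon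
  have h1 := (isUnit_of_ne f hcon).map φ
  rw [h] at h1
  exact not_isUnit_zero h1

/-- the real coordinate of a character -/
lemma exists_t (φ : A →ₐ[ℂ] ℂ) : ∃ t : ℝ, φ cb = t ∧ t ^ 2 ≤ 1 := by
  obtain ⟨x, hx⟩ := exists_zero φ (cb - algebraMap ℂ A (φ cb))
    (by rw [map_sub, AlgHom.commutes]; exact sub_self _)
  have h1 : (x.1.2 : ℂ) - φ cb = 0 := hx
  refine ⟨x.1.2, (sub_eq_zero.1 h1).symm, ?_⟩
  have h2 : ‖x.1.1‖ ^ 2 + x.1.2 ^ 2 ≤ 1 := x.2
  nlinarith [sq_nonneg ‖x.1.1‖]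

lemma phi_G (φ : A →ₐ[ℂ] ℂ) (t : ℝ) (ht : φ cb = t) (g : C(ℝ, ℂ)) : φ (G g) = g t := by
  set w := φ (G g) with hw
  let g' : C(ℝ, ℂ) := ⟨fun s => conj (g s - w), by fun_prop⟩
  obtain ⟨x, hx⟩ := exists_zero φ (G g' * (G g - algebraMap ℂ A w) +
    (cb - algebraMap ℂ A (t : ℂ)) * (cb - algebraMap ℂ A (t : ℂ))) (by
      rw [map_add, map_mul, map_mul, map_sub, map_sub, AlgHom.commutes, AlgHom.commutes, ht, ← hw]
      simp)
  have h1 : conj (g x.1.2 - w) * (g x.1.2 - w) +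
      ((x.1.2 : ℂ) - t) * ((x.1.2 : ℂ) - t) = 0 := hx
  have h2 : ‖g x.1.2 - w‖ ^ 2 + (x.1.2 - t) ^ 2 = 0 := by
    have e : conj (g x.1.2 - w) * (g x.1.2 - w) = ((‖g x.1.2 - w‖ ^ 2 : ℝ) : ℂ) := by
      rw [mul_comm, Complex.mul_conj, Complex.normSq_eq_norm_sq]
    rw [e] at h1
    have : ((‖g x.1.2 - w‖ ^ 2 + (x.1.2 - t) ^ 2 : ℝ) : ℂ) = 0 := by
      rw [← h1]
      push_cast
      ring
    exact_mod_cast this
  have h3 : x.1.2 - t = 0 := by
    have h4 := sq_nonneg (x.1.2 - t)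
    have h5 := sq_nonneg ‖g x.1.2 - w‖
    exact pow_eq_zero_iff two_ne_zero |>.1 (by linarith)
  have h6 : ‖g x.1.2 - w‖ = 0 := by
    have h4 := sq_nonneg (x.1.2 - t)
    have h5 := sq_nonneg ‖g x.1.2 - w‖
    exact pow_eq_zero_iff two_ne_zero |>.1 (by linarith)
  have h7 : x.1.2 = t := by linarith
  rw [h7, norm_eq_zero, sub_eq_zero] at h6
  exact h6.symm

lemma norm_phi (φ : A →ₐ[ℂ] ℂ) (f : A) : ‖φ f‖ ≤ ‖f‖ := by
  obtain ⟨x, hx⟩ := exists_zero φ (f - algebraMap ℂ A (φ f))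
    (by rw [map_sub, AlgHom.commutes]; exact sub_self _)
  have h1 : f.1 x - φ f = 0 := hx
  rw [sub_eq_zero] at h1
  rw [← h1]
  exact ContinuousMap.norm_coe_le_norm f.1 x

/-- localisation to a slice -/
lemma loc (φ : A →ₐ[ℂ] ℂ) (t : ℝ) (ht : φ cb = t) (f : A) (C : ℝ) (hC0 : 0 ≤ C)
    (hC : ∀ x : X, x.1.2 = t → ‖f.1 x‖ ≤ C) : ‖φ f‖ ≤ C := by
  refine le_of_forall_pos_le_add fun ε hε => ?_
  obtain ⟨δ, hδ, hδ2⟩ : ∃ δ : ℝ, 0 < δ ∧ ∀ x : X, C + ε ≤ ‖f.1 x‖ → δ ≤ |x.1.2 - t| := by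
    have hcl : IsClosed {x : X | C + ε ≤ ‖f.1 x‖} := isClosed_le continuous_const
      f.1.continuous.norm
    by_cases hne : {x : X | C + ε ≤ ‖f.1 x‖}.Nonempty
    · obtain ⟨v, hv, hmin⟩ := hcl.isCompact.exists_isMinOn hne
        (f := fun x : X => |x.1.2 - t|) (by fun_prop)
      refine ⟨|v.1.2 - t|, ?_, fun x hx => hmin hx⟩
      rw [abs_pos]
      intro h
      have h1 := hC v (by linarith)
      have h2 : C + ε ≤ ‖f.1 v‖ := hv
      linarith
    · rw [Set.not_nonempty_iff_eq_empty] at hne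
      refine ⟨1, one_pos, fun x hx => ?_⟩
      have : x ∈ {x : X | C + ε ≤ ‖f.1 x‖} := hx
      rw [hne] at this
      exact absurd this (Set.notMem_empty x)
  let χ : C(ℝ, ℂ) := ⟨fun s => ((max 0 (1 - |s - t| / δ) : ℝ) : ℂ), by fun_prop⟩
  have h1 : φ (f * G χ) = φ f := by
    rw [map_mul, phi_G φ t ht]
    have : χ t = 1 := by
      show ((max 0 (1 - |t - t| / δ) : ℝ) : ℂ) = 1
      simp
    rw [this, mul_one]
  have h2 : ‖φ (f * G χ)‖ ≤ ‖f * G χ‖ := norm_phi φ _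
  rw [h1] at h2
  refine h2.trans ?_
  show ‖(f * G χ).1‖ ≤ C + ε
  rw [ContinuousMap.norm_le _ (by linarith)]
  intro x
  have e : (f * G χ).1 x = f.1 x * χ x.1.2 := rfl
  have hχ0 : 0 ≤ max 0 (1 - |x.1.2 - t| / δ) := le_max_left _ _
  have hχ1 : ‖χ x.1.2‖ = max 0 (1 - |x.1.2 - t| / δ) := by
    show ‖((max 0 (1 - |x.1.2 - t| / δ) : ℝ) : ℂ)‖ = _
    rw [Complex.norm_real, Real.norm_of_nonneg hχ0]
  rw [e, norm_mul, hχ1]
  by_cases hx : C + ε ≤ ‖f.1 x‖
  · have h3 := hδ2 x hx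
    have h4 : max 0 (1 - |x.1.2 - t| / δ) = 0 := by
      rw [max_eq_left]
      have : 1 ≤ |x.1.2 - t| / δ := by rwa [le_div_iff₀ hδ, one_mul]
      linarith
    rw [h4, mul_zero]
    linarith
  · have h4 : max 0 (1 - |x.1.2 - t| / δ) ≤ 1 := by
      refine max_le zero_le_one ?_
      have : 0 ≤ |x.1.2 - t| / δ := by positivity
      linarith
    calc ‖f.1 x‖ * max 0 (1 - |x.1.2 - t| / δ) ≤ ‖f.1 x‖ * 1 :=
          mul_le_mul_of_nonneg_left h4 (norm_nonneg _)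
      _ ≤ C + ε := by rw [mul_one]; exact (not_le.1 hx).le

/-- every character is the evaluation at a point -/
theorem exists_ev (φ : A →ₐ[ℂ] ℂ) : ∃ p : X, φ = ev p := by
  obtain ⟨t, ht, ht1⟩ := exists_t φ
  set a := φ cz with ha
  set R := √(1 - t ^ 2) with hR
  have hR0 : 0 ≤ R := Real.sqrt_nonneg _
  have hR2 : R ^ 2 = 1 - t ^ 2 := Real.sq_sqrt (by linarith)
  have hmem : ∀ z : ℂ, ‖z‖ ≤ R → (z, t) ∈ X := by
    intro z hz
    show ‖z‖ ^ 2 + t ^ 2 ≤ 1
    nlinarith [norm_nonneg z]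
  have hmem' : ∀ x : X, x.1.2 = t → ‖x.1.1‖ ≤ R := by
    intro x hx
    have h1 : ‖x.1.1‖ ^ 2 + x.1.2 ^ 2 ≤ 1 := x.2
    rw [hx] at h1
    exact abs_le_of_sq_le_sq' (by linarith) hR0 |>.2
  have haR : ‖a‖ ≤ R := loc φ t ht cz R hR0 (fun x hx => hmem' x hx)
  refine ⟨⟨(a, t), hmem a haR⟩, AlgHom.ext fun f => ?_⟩
  rw [ev_apply]
  have key : ∀ ε : ℝ, 0 < ε → ∃ P : Polynomial ℂ, ∀ z, ‖z‖ ≤ R → ‖P.eval z - sl f.1 t z‖ ≤ ε := by
    intro ε hε
    rcases hR0.lt_or_eq with hRp | hRz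
    · obtain ⟨P, hP⟩ := approx_poly (sl f.1 t) R hRp
        ((sl_continuousOn f.1 t).mono (fun z hz => hmem z (by simpa using hz)))
        ((f.2 t).mono (fun z hz => by
          show ‖z‖ ^ 2 + t ^ 2 < 1
          have : ‖z‖ < R := by simpa using hz
          nlinarith [norm_nonneg z])) ε hε
      exact ⟨P, fun z hz => hP z (by simpa using hz)⟩
    · refine ⟨Polynomial.C (sl f.1 t 0), fun z hz => ?_⟩
      rw [← hRz] at hz
      have : z = 0 := by simpa using hz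
      rw [this, Polynomial.eval_C, sub_self, norm_zero]
      exact hε.le
  have h1 : ∀ ε : ℝ, 0 < ε → ‖φ f - f.1 ⟨(a, t), hmem a haR⟩‖ ≤ ε + ε := by
    intro ε hε
    obtain ⟨P, hP⟩ := key ε hε
    have hPx : ∀ x : X, (Polynomial.aeval cz P).1 x = P.eval x.1.1 := by
      intro x
      have : (Polynomial.aeval cz P).1 x = ev x (Polynomial.aeval cz P) := rfl
      rw [this, ← Polynomial.aeval_algHom_apply, ev_apply, cz_apply, Polynomial.coe_aeval_eq_eval]
    have h2 : ‖φ (f - Polynomial.aeval cz P)‖ ≤ ε := by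
      refine loc φ t ht _ ε hε.le fun x hx => ?_
      have e : (f - Polynomial.aeval cz P).1 x = f.1 x - (Polynomial.aeval cz P).1 x := rfl
      have h3 := hP x.1.1 (hmem' x hx)
      have e2 : sl f.1 t x.1.1 = f.1 x := by
        obtain ⟨⟨z, b⟩, hxX⟩ := x
        simp only at hx
        subst hx
        exact sl_apply _ _ _ hxX
      rw [e, hPx, ← e2, norm_sub_rev]
      exact h3
    rw [map_sub, ← Polynomial.aeval_algHom_apply, ← ha, Polynomial.coe_aeval_eq_eval] at h2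
    have h3 := hP a haR
    rw [sl_apply _ _ _ (hmem a haR)] at h3
    have e : φ f - f.1 ⟨(a, t), hmem a haR⟩ = (φ f - P.eval a) +
        (P.eval a - f.1 ⟨(a, t), hmem a haR⟩) := by ring
    rw [e]
    exact (norm_add_le _ _).trans (add_le_add h2 h3)
  have h2 : ‖φ f - f.1 ⟨(a, t), hmem a haR⟩‖ ≤ 0 := by
    refine le_of_forall_pos_le_add fun ε hε => ?_
    have := h1 (ε / 2) (by linarith)
    linarith
  rw [norm_le_zero_iff, sub_eq_zero] at h2
  exact h2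

end Pool.Agent.Y503.CX
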