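import Pool.Agent.Y503.CX.Chars

/-!
The cortex of the slice algebra.
-/

set_option autoImplicit false

namespace Pool.Agent.Y503.CX

open Set Filter Topology ComplexConjugate Pool.Agent.W70.BA WeakDual

universe u

lemma pk_pow_le (s : X) (hs : s.1 ∈ S) (n : ℕ) : ‖pk s.1 ^ n‖ ≤ 1 := by
  show ‖((pk s.1) ^ n).1‖ ≤ 1
  rw [ContinuousMap.norm_le _ zero_le_one]
  intro x
  have : ((pk s.1) ^ n).1 x = ((pk s.1).1 x) ^ n := rfl
  rw [this, norm_pow]
  exact pow_le_one₀ (norm_nonneg _) (pk_le s.1 hs x)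

lemma pk_pow_ge (s : X) (hs : s.1 ∈ S) (n : ℕ) : 1 ≤ ‖pk s.1 ^ n‖ := by
  have h1 := ContinuousMap.norm_coe_le_norm ((pk s.1) ^ n).1 s
  have : ((pk s.1) ^ n).1 s = ((pk s.1).1 s) ^ n := rfl
  rw [this, pk_self s hs, one_pow, norm_one] at h1
  exact h1

lemma exists_small (s : X) (hs : s.1 ∈ S) (f : A) (hs0 : f.1 s = 0) (ε : ℝ) (hε : 0 < ε) :
    ∃ n : ℕ, ‖f * pk s.1 ^ n‖ ≤ ε := by
  have hVcl : IsClosed {x : X | ε ≤ ‖f.1 x‖} := isClosed_le continuous_const f.1.continuous.norm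
  obtain ⟨q, hq0, hq1, hq⟩ : ∃ q : ℝ, 0 ≤ q ∧ q < 1 ∧ ∀ x : X, ε ≤ ‖f.1 x‖ → ‖(pk s.1).1 x‖ ≤ q := by
    by_cases hne : {x : X | ε ≤ ‖f.1 x‖}.Nonempty
    · obtain ⟨v, hv, hmax⟩ := hVcl.isCompact.exists_isMaxOn hne
        ((pk s.1).1.continuous.norm.continuousOn)
      refine ⟨‖(pk s.1).1 v‖, norm_nonneg _, ?_, fun x hx => hmax hx⟩
      apply pk_lt s.1 hs
      intro h
      have hvs : v = s := Subtype.ext h
      have hv' : ε ≤ ‖f.1 v‖ := hv
      rw [hvs, hs0, norm_zero] at hv'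
      linarith
    · rw [Set.not_nonempty_iff_eq_empty] at hne
      refine ⟨0, le_rfl, zero_lt_one, fun x hx => ?_⟩
      have : x ∈ {x : X | ε ≤ ‖f.1 x‖} := hx
      rw [hne] at this
      exact absurd this (Set.notMem_empty x)
  obtain ⟨n, hn⟩ : ∃ n : ℕ, ‖f‖ * q ^ n ≤ ε := by
    have h1 : Tendsto (fun n : ℕ => ‖f‖ * q ^ n) atTop (𝓝 (‖f‖ * 0)) :=
      (tendsto_pow_atTop_nhds_zero_of_lt_one hq0 hq1).const_mul _
    rw [mul_zero] at h1
    obtain ⟨n, hn⟩ := (h1.eventually_le_const hε).exists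
    exact ⟨n, hn⟩
  refine ⟨n, ?_⟩
  show ‖(f * (pk s.1) ^ n).1‖ ≤ ε
  rw [ContinuousMap.norm_le _ hε.le]
  intro x
  have e : (f * (pk s.1) ^ n).1 x = f.1 x * ((pk s.1).1 x) ^ n := rfl
  rw [e, norm_mul, norm_pow]
  by_cases hx : ε ≤ ‖f.1 x‖
  · calc ‖f.1 x‖ * ‖(pk s.1).1 x‖ ^ n ≤ ‖f‖ * q ^ n := by
          apply mul_le_mul (ContinuousMap.norm_coe_le_norm f.1 x) _ (by positivity) (norm_nonneg _)
          exact pow_le_pow_left₀ (norm_nonneg _) (hq x hx) n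
      _ ≤ ε := hn
  · calc ‖f.1 x‖ * ‖(pk s.1).1 x‖ ^ n ≤ ‖f.1 x‖ * 1 := by
          apply mul_le_mul_of_nonneg_left _ (norm_nonneg _)
          exact pow_le_one₀ (norm_nonneg _) (pk_le s.1 hs x)
      _ ≤ ε := by rw [mul_one]; exact (not_le.mp hx).le

lemma tend (s : X) (hs : s.1 ∈ S) (f : A) (hs0 : f.1 s = 0) :
    Tendsto (fun n : ℕ => ‖f * pk s.1 ^ n‖) atTop (𝓝 0) := by
  rw [Metric.tendsto_atTop]
  intro ε hε
  obtain ⟨n, hn⟩ := exists_small s hs f hs0 (ε / 2) (by linarith)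
  refine ⟨n, fun m hm => ?_⟩
  rw [dist_zero_right, norm_norm]
  obtain ⟨k, rfl⟩ := Nat.exists_eq_add_of_le hm
  rw [pow_add, ← mul_assoc]
  calc ‖f * pk s.1 ^ n * pk s.1 ^ k‖ ≤ ‖f * pk s.1 ^ n‖ * ‖pk s.1 ^ k‖ := norm_mul_le _ _
    _ ≤ ‖f * pk s.1 ^ n‖ * 1 := mul_le_mul_of_nonneg_left (pk_pow_le s hs k) (norm_nonneg _)
    _ < ε := by linarith

/-- The evaluations at the points of the sphere extend to all larger algebras. -/
theorem ext_sphere (s : X) (hs : s.1 ∈ S) (B : Type u) [NormedCommRing B] [NormedAlgebra ℂ B]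
    [CompleteSpace B] (j : A →ₐ[ℂ] B) (c C : ℝ) (hc : 0 < c)
    (hj : ∀ x, c * ‖x‖ ≤ ‖j x‖ ∧ ‖j x‖ ≤ C * ‖x‖) : ∃ ψ : B →ₐ[ℂ] ℂ, ψ.comp j = ev s := by
  set I : Ideal B := Ideal.span (j '' {f : A | f.1 s = 0}) with hI
  have h1 : ∀ u ∈ I, Tendsto (fun n : ℕ => ‖u * j (pk s.1 ^ n)‖) atTop (𝓝 0) := by
    intro u hu
    refine Submodule.span_induction (p := fun u _ =>
      Tendsto (fun n : ℕ => ‖u * j (pk s.1 ^ n)‖) atTop (𝓝 0)) ?_ ?_ ?_ ?_ hu
    · rintro _ ⟨f, hf, rfl⟩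
      have h2 := (tend s hs f hf).const_mul C
      rw [mul_zero] at h2
      refine squeeze_zero (fun n => norm_nonneg _) (fun n => ?_) h2
      rw [← map_mul]
      exact (hj _).2
    · simp
    · intro x y _ _ hx hy
      have h2 := hx.add hy
      rw [add_zero] at h2
      refine squeeze_zero (fun n => norm_nonneg _) (fun n => ?_) h2
      rw [add_mul]
      exact norm_add_le _ _
    · intro a x _ hx
      have h2 := hx.const_mul ‖a‖
      rw [mul_zero] at h2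
      refine squeeze_zero (fun n => norm_nonneg _) (fun n => ?_) h2
      rw [smul_eq_mul, mul_assoc]
      exact norm_mul_le _ _
  have h2 : I ≠ ⊤ := by
    intro h
    have h3 := h1 1 (h ▸ Submodule.mem_top)
    simp only [one_mul] at h3
    have h4 : ∀ n : ℕ, c ≤ ‖j (pk s.1 ^ n)‖ := fun n => by
      have h5 := (hj (pk s.1 ^ n)).1
      have h6 := pk_pow_ge s hs n
      nlinarith
    have := ge_of_tendsto h3 (Eventually.of_forall h4)
    linarith
  obtain ⟨M, hM, hIM⟩ := Ideal.exists_le_maximal I h2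
  refine ⟨CharacterSpace.toAlgHom M.toCharacterSpace, AlgHom.ext fun f => ?_⟩
  have h3 : f - algebraMap ℂ A (f.1 s) ∈ {f : A | f.1 s = 0} := by
    show f.1 s - f.1 s = 0
    exact sub_self _
  have h4 : M.toCharacterSpace (j (f - algebraMap ℂ A (f.1 s))) = 0 :=
    M.toCharacterSpace_apply_eq_zero_of_mem (hIM (Ideal.subset_span ⟨_, h3, rfl⟩))
  rw [map_sub, AlgHom.commutes, map_sub] at h4
  rw [ev_apply]
  show M.toCharacterSpace (j f) = f.1 s
  rw [sub_eq_zero] at h4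
  rw [h4]
  exact AlgHomClass.commutes M.toCharacterSpace (f.1 s)

/-- The evaluations at the other points do not extend to the continuous functions on the
sphere. -/
theorem not_ext (p : X) (hp : p.1 ∉ S) (ψ : C(S, ℂ) →ₐ[ℂ] ℂ) : ψ.comp res ≠ ev p := by
  intro h
  have h1 : ψ (res cz) = p.1.1 := by
    have := congrArg (fun g : A →ₐ[ℂ] ℂ => g cz) h
    exact this
  have h2 : ψ (res cb) = p.1.2 := by
    have := congrArg (fun g : A →ₐ[ℂ] ℂ => g cb) h
    exact this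
  let g : C(S, ℂ) := ⟨fun s => conj (s.1.1 - p.1.1), by fun_prop⟩
  set v : C(S, ℂ) := g * (res cz - algebraMap ℂ _ p.1.1) +
    (res cb - algebraMap ℂ _ (p.1.2 : ℂ)) * (res cb - algebraMap ℂ _ (p.1.2 : ℂ)) with hv
  have h3 : ψ v = 0 := by
    rw [hv, map_add, map_mul, map_mul, map_sub, map_sub, AlgHom.commutes, AlgHom.commutes, h1, h2]
    simp
  have h4 : IsUnit v := by
    rw [ContinuousMap.isUnit_iff_forall_ne_zero]
    intro s hs
    have e1 : v s = conj (s.1.1 - p.1.1) * (s.1.1 - p.1.1) +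
        ((s.1.2 : ℂ) - p.1.2) * ((s.1.2 : ℂ) - p.1.2) := rfl
    rw [e1] at hs
    have e : conj (s.1.1 - p.1.1) * (s.1.1 - p.1.1) = ((‖s.1.1 - p.1.1‖ ^ 2 : ℝ) : ℂ) := by
      rw [mul_comm, Complex.mul_conj, Complex.normSq_eq_norm_sq]
    rw [e] at hs
    have h5 : ‖s.1.1 - p.1.1‖ ^ 2 + (s.1.2 - p.1.2) ^ 2 = 0 := by
      have : ((‖s.1.1 - p.1.1‖ ^ 2 + (s.1.2 - p.1.2) ^ 2 : ℝ) : ℂ) = 0 := by
        rw [← hs]
        push_cast
        ring
      exact_mod_cast this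
    have h6 := sq_nonneg (s.1.2 - p.1.2)
    have h7 := sq_nonneg ‖s.1.1 - p.1.1‖
    have h8 : s.1.2 - p.1.2 = 0 := pow_eq_zero_iff two_ne_zero |>.1 (by linarith)
    have h9 : ‖s.1.1 - p.1.1‖ = 0 := pow_eq_zero_iff two_ne_zero |>.1 (by linarith)
    rw [norm_eq_zero, sub_eq_zero] at h9
    rw [sub_eq_zero] at h8
    apply hp
    have : p.1 = s.1 := Prod.ext h9.symm h8.symm
    rw [this]
    exact s.2
  have h5 := h4.map ψ
  rw [h3] at h5
  exact not_isUnit_zero h5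

/-- The Gelfand space is the ball. -/
noncomputable def toChar (p : X) : characterSpace ℂ A := CharacterSpace.equivAlgHom.symm (ev p)

lemma toChar_apply (p : X) (f : A) : toChar p f = f.1 p := rfl

lemma toChar_bij : Function.Bijective toChar := by
  refine (CharacterSpace.equivAlgHom.symm.bijective).comp ⟨?_, ?_⟩
  · intro p q h
    have h1 : p.1.1 = q.1.1 := congrArg (fun g : A →ₐ[ℂ] ℂ => g cz) h
    have h2 : (p.1.2 : ℂ) = q.1.2 := congrArg (fun g : A →ₐ[ℂ] ℂ => g cb) h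
    exact Subtype.ext (Prod.ext h1 (by exact_mod_cast h2))
  · intro φ
    obtain ⟨p, hp⟩ := exists_ev φ
    exact ⟨p, hp.symm⟩

lemma toChar_cont : Continuous toChar := by
  refine Continuous.subtype_mk (WeakDual.continuous_of_continuous_eval fun f => ?_) _
  exact f.1.continuous

noncomputable def gelf : X ≃ₜ characterSpace ℂ A :=
  Continuous.homeoOfEquivCompactToT2 (f := Equiv.ofBijective toChar toChar_bij) toChar_cont

lemma gelf_apply (p : X) (f : A) : gelf p f = f.1 p := rfl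

lemma S_nonempty : {x : X | (x : ℂ × ℝ) ∈ S}.Nonempty :=
  ⟨⟨(1, 0), by show ‖(1 : ℂ)‖ ^ 2 + (0 : ℝ) ^ 2 ≤ 1; simp⟩, by
    show ‖(1 : ℂ)‖ ^ 2 + (0 : ℝ) ^ 2 = 1; simp⟩

/-- The norm is attained on the sphere. -/
theorem attained (f : A) : ∃ p : X, p.1 ∈ S ∧ ‖f.1 p‖ = ‖f‖ := by
  have hScl : IsClosed {x : X | (x : ℂ × ℝ) ∈ S} :=
    (isClosed_eq continuous_q continuous_const).preimage continuous_subtype_val
  obtain ⟨s, hs, hmax⟩ := hScl.isCompact.exists_isMaxOn S_nonempty f.1.continuous.norm.continuousOn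
  refine ⟨s, hs, le_antisymm (ContinuousMap.norm_coe_le_norm f.1 s) ?_⟩
  show ‖f.1‖ ≤ _
  rw [ContinuousMap.norm_le _ (norm_nonneg _)]
  exact max_principle f _ fun x hx => hmax hx

theorem norm_sq (f : A) : ‖f * f‖ = ‖f‖ ^ 2 := by
  refine le_antisymm ((norm_mul_le _ _).trans (le_of_eq (sq _).symm)) ?_
  obtain ⟨p, -, hp⟩ := attained f
  rw [← hp, sq, ← norm_mul]
  exact ContinuousMap.norm_coe_le_norm (f * f).1 p

end Pool.Agent.Y503.CX
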